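import Pool.Agent.V11242.BT.Main

/-!
# MP_6a38e0_lc: uncountably versus continuum many disjoint translates

We construct, in ZFC, a Borel set `B` of reals that has uncountably many pairwise disjoint
translates, while no family of pairwise disjoint translates of `B` has more than `ℵ₁` members.
Consequently the implication of Q1 is equivalent to the continuum hypothesis.
-/

namespace Pool.Agent.Results.MP_6a38e0_lc.ExactlyAlephOneTranslates

open Cardinal Set Pool.Agent.V11242.BT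

/-- The translate `B + x`. -/
def translate (B : Set ℝ) (x : ℝ) : Set ℝ := {t | ∃ b ∈ B, t = b + x}

/-- The translates of `B` by the elements of `X` are pairwise disjoint. -/
def DisjointTranslates (B X : Set ℝ) : Prop :=
  ∀ x ∈ X, ∀ y ∈ X, x ≠ y → translate B x ∩ translate B y = ∅

/-- `B` has `κ` many pairwise disjoint translates. -/
def HasTranslates (κ : Cardinal.{0}) (B : Set ℝ) : Prop :=
  ∃ X : Set ℝ, #X = κ ∧ DisjointTranslates B X

/-- `B` has uncountably many pairwise disjoint translates. -/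
def HasUncountablyMany (B : Set ℝ) : Prop :=
  ∃ X : Set ℝ, ¬ X.Countable ∧ DisjointTranslates B X

/-- Borel sets of reals. -/
def IsBorel (B : Set ℝ) : Prop := @MeasurableSet ℝ (borel ℝ) B

lemma disj_iff (X : Set ℝ) : DisjointTranslates B X ↔
    ∀ x ∈ X, ∀ y ∈ X, x ≠ y → ∃ u v, Adj u v ∧ x - y = p u - p v := by
  unfold DisjointTranslates
  refine forall₂_congr fun x hx => forall₂_congr fun y hy => forall_congr' fun hne => ?_
  have h1 := diff_iff (x - y)
  rw [← not_iff_not, ← h1]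
  constructor
  · intro h
    obtain ⟨t, ⟨b, hb, h2⟩, ⟨b', hb', h3⟩⟩ := Set.nonempty_iff_ne_empty.mpr h
    exact ⟨b', hb', b, hb, by linarith⟩
  · rintro ⟨a, ha, b, hb, hab⟩ h
    have h2 : b + x ∈ translate B x ∩ translate B y :=
      ⟨⟨b, hb, rfl⟩, ⟨a, ha, by linarith⟩⟩
    rw [h] at h2
    exact h2

lemma exists_uncountable : HasUncountablyMany B := by
  obtain ⟨K, hK, hcl⟩ := exists_clique
  refine ⟨p '' K, ?_, ?_⟩
  · intro h
    exact hK (countable_of_injective_of_countable_image p_injective.injOn h)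
  · rw [disj_iff]
    rintro _ ⟨u, hu, rfl⟩ _ ⟨v, hv, rfl⟩ hne
    exact ⟨u, v, hcl hu hv (fun h => hne (by rw [h])), rfl⟩

lemma card_le {X : Set ℝ} (hX : DisjointTranslates B X) : #X ≤ ℵ_ 1 := by
  classical
  rw [disj_iff] at hX
  by_contra hlt
  push Not at hlt
  have hlt0 : ℵ₀ < #X := lt_trans Cardinal.aleph0_lt_aleph_one hlt
  have hXinf : X.Infinite := by
    rw [← Set.infinite_coe_iff]
    exact Cardinal.infinite_iff.mpr hlt0.le
  obtain ⟨x₀, hx₀⟩ := hXinf.nonempty
  obtain ⟨x₁, hx₁, hne⟩ : ∃ x ∈ X, x ≠ x₀ := by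
    obtain ⟨x, hx, h⟩ := hXinf.exists_notMem_finite (Set.finite_singleton x₀)
    exact ⟨x, hx, h⟩
  have hch : ∀ x : ℝ, ∃ q : (ℕ → Bool) × (ℕ → Bool), x ∈ X → x ≠ x₀ →
      Adj q.1 q.2 ∧ x - x₀ = p q.1 - p q.2 := by
    intro x
    by_cases h : x ∈ X ∧ x ≠ x₀
    · obtain ⟨u, v, h1, h2⟩ := hX x h.1 x₀ hx₀ h.2
      exact ⟨(u, v), fun _ _ => ⟨h1, h2⟩⟩
    · exact ⟨(fun _ => false, fun _ => false), fun h1 h2 => absurd ⟨h1, h2⟩ h⟩
  choose q hq using hch
  obtain ⟨hadj₁, heq₁⟩ := hq x₁ hx₁ hne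
  let Xa : Set ℝ := {x ∈ X | x ≠ x₀ ∧ (q x).1 = (q x₁).1}
  let Xb : Set ℝ := {x ∈ X | x ≠ x₀ ∧ (q x).2 = (q x₁).2}
  have hcov : X ⊆ {x₀, x₁} ∪ (Xa ∪ Xb) := by
    intro x hx
    by_cases h0 : x = x₀
    · exact Or.inl (Or.inl h0)
    by_cases h1 : x = x₁
    · exact Or.inl (Or.inr h1)
    right
    obtain ⟨hadj, heq⟩ := hq x hx h0
    obtain ⟨u, v, huv, he⟩ := hX x hx x₁ hx₁ h1
    have h2 : (pt (q x).1 - pt (q x).2) - (pt (q x₁).1 - pt (q x₁).2) = pt u - pt v := by
      have h3 : (p (q x).1 - p (q x).2) - (p (q x₁).1 - p (q x₁).2) = p u - p v := by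
        rw [← heq, ← heq₁, ← he]; ring
      unfold p at h3
      linarith
    rcases pt_dich h2 hadj.1 hadj₁.1 with h | h
    · exact Or.inl ⟨hx, h0, h⟩
    · exact Or.inr ⟨hx, h0, h⟩
  have ha : #Xa ≤ ℵ_ 1 := by
    refine clique_image_le (fun x => (q x).2) ?_
    rintro x ⟨hx, hx0, hxa⟩ y ⟨hy, hy0, hya⟩ hxy
    obtain ⟨-, heqx⟩ := hq x hx hx0
    obtain ⟨-, heqy⟩ := hq y hy hy0
    obtain ⟨u, v, huv, he⟩ := hX x hx y hy hxy
    have h3 : p (q y).2 - p (q x).2 = p u - p v := by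
      rw [← he]
      rw [hxa] at heqx
      rw [hya] at heqy
      linarith
    have h4 : pt (q y).2 - pt (q x).2 = pt u - pt v := by unfold p at h3; linarith
    have h5 : (q y).2 ≠ (q x).2 := by
      intro h
      apply hxy
      rw [hxa] at heqx
      rw [hya, h] at heqy
      linarith
    obtain ⟨h6, h7⟩ := pt_uniq h4 h5
    rw [h6, h7]
    exact huv.symm
  have hb : #Xb ≤ ℵ_ 1 := by
    refine clique_image_le (fun x => (q x).1) ?_
    rintro x ⟨hx, hx0, hxa⟩ y ⟨hy, hy0, hya⟩ hxy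
    obtain ⟨-, heqx⟩ := hq x hx hx0
    obtain ⟨-, heqy⟩ := hq y hy hy0
    obtain ⟨u, v, huv, he⟩ := hX x hx y hy hxy
    have h3 : p (q x).1 - p (q y).1 = p u - p v := by
      rw [← he]
      rw [hxa] at heqx
      rw [hya] at heqy
      linarith
    have h4 : pt (q x).1 - pt (q y).1 = pt u - pt v := by unfold p at h3; linarith
    have h5 : (q x).1 ≠ (q y).1 := by
      intro h
      apply hxy
      rw [hxa] at heqx
      rw [hya, ← h] at heqy
      linarith
    obtain ⟨h6, h7⟩ := pt_uniq h4 h5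
    rw [h6, h7]
    exact huv
  have h1 : #X ≤ #({x₀, x₁} : Set ℝ) + (#Xa + #Xb) :=
    le_trans (mk_le_mk_of_subset hcov) (le_trans (mk_union_le _ _) (by
      gcongr
      exact mk_union_le _ _))
  have h2 : #({x₀, x₁} : Set ℝ) ≤ ℵ_ 1 :=
    le_trans (Cardinal.le_aleph0_iff_set_countable.mpr (Set.toFinite _).countable)
      (Cardinal.aleph0_le_aleph 1)
  have h3 : #X ≤ ℵ_ 1 + (ℵ_ 1 + ℵ_ 1) :=
    le_trans h1 (add_le_add h2 (add_le_add ha hb))
  rw [Cardinal.add_eq_self (Cardinal.aleph0_le_aleph 1),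
    Cardinal.add_eq_self (Cardinal.aleph0_le_aleph 1)] at h3
  exact absurd h3 (not_le.mpr hlt)

lemma isBorel_B : IsBorel B := by
  have h := measurableSet_B
  unfold IsBorel
  rwa [BorelSpace.measurable_eq (α := ℝ)] at h

/-- **Main theorem.** (1) Some Borel set `B ⊆ ℝ` has uncountably many pairwise disjoint
translates, in fact `ℵ₁` many, but no family of pairwise disjoint translates of it has more than
`ℵ₁` members. (2) The implication of Q1, namely that every Borel set of reals with uncountably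
many pairwise disjoint translates has `𝔠` many of them, is equivalent to the continuum
hypothesis; so it fails in every model of ZFC in which the continuum hypothesis fails. -/
theorem result :
    (∃ B : Set ℝ, IsBorel B ∧ HasUncountablyMany B ∧ HasTranslates (ℵ_ 1) B ∧
      ∀ X : Set ℝ, DisjointTranslates B X → #X ≤ ℵ_ 1) ∧
    ((∀ B : Set ℝ, IsBorel B → HasUncountablyMany B → HasTranslates 𝔠 B) ↔
      (𝔠 : Cardinal.{0}) = ℵ_ 1) := by
  have hex : HasTranslates (ℵ_ 1) B := by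
    obtain ⟨X, hX, hd⟩ := exists_uncountable
    refine ⟨X, le_antisymm (card_le hd) ?_, hd⟩
    rw [← Cardinal.succ_aleph0]
    exact Order.succ_le_of_lt (not_le.mp fun h => hX (Cardinal.le_aleph0_iff_set_countable.mp h))
  refine ⟨⟨B, isBorel_B, exists_uncountable, hex, fun X hX => card_le hX⟩, ?_, ?_⟩
  · intro h
    obtain ⟨X, hX, hd⟩ := h B isBorel_B exists_uncountable
    have h1 := card_le hd
    rw [hX] at h1
    exact le_antisymm h1 Cardinal.aleph_one_le_continuum
  · rintro hCH A hA ⟨X, hX, hd⟩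
    refine ⟨X, le_antisymm ?_ ?_, hd⟩
    · exact le_trans (Cardinal.mk_set_le X) (by rw [Cardinal.mk_real])
    · rw [hCH, ← Cardinal.succ_aleph0]
      exact Order.succ_le_of_lt (not_le.mp fun h => hX (Cardinal.le_aleph0_iff_set_countable.mp h))

end Pool.Agent.Results.MP_6a38e0_lc.ExactlyAlephOneTranslates
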